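import Mathlib

/-!
# Counting lemmas
-/

open scoped symmDiff

namespace Pool.Agent.Lib.MP_a7c66d_lc

variable {V : Type*} [DecidableEq V]

lemma card_small_le (X : Finset V) (e : ℕ) :
    (X.powerset.filter (fun D => D.card ≤ e)).card ≤ (X.card + 1) ^ e := by
  induction e with
  | zero =>
    have h : X.powerset.filter (fun D => D.card ≤ 0) ⊆ {∅} := by
      intro D hD
      have := (Finset.mem_filter.1 hD).2
      rw [Finset.mem_singleton, ← Finset.card_eq_zero]
      omega
    simpa using Finset.card_le_card h
  | succ e ih =>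
    have h : X.powerset.filter (fun D => D.card ≤ e + 1) ⊆
        ((Finset.insertNone X) ×ˢ (X.powerset.filter (fun D => D.card ≤ e))).image
          (fun p => p.1.elim p.2 (fun x => insert x p.2)) := by
      intro D hD
      obtain ⟨hD1, hD2⟩ := Finset.mem_filter.1 hD
      rw [Finset.mem_powerset] at hD1
      rcases Finset.eq_empty_or_nonempty D with rfl | ⟨x, hx⟩
      · refine Finset.mem_image.2 ⟨(none, ∅), ?_, rfl⟩
        refine Finset.mem_product.2 ⟨Finset.none_mem_insertNone, ?_⟩
        simp
      · refine Finset.mem_image.2 ⟨(some x, D.erase x), ?_, ?_⟩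
        · refine Finset.mem_product.2 ⟨?_, ?_⟩
          · exact Finset.some_mem_insertNone.2 (hD1 hx)
          · refine Finset.mem_filter.2 ⟨?_, ?_⟩
            · exact Finset.mem_powerset.2 ((Finset.erase_subset x D).trans hD1)
            · rw [Finset.card_erase_of_mem hx]
              omega
        · exact Finset.insert_erase hx
    refine (Finset.card_le_card h).trans (Finset.card_image_le.trans ?_)
    rw [Finset.card_product, Finset.card_insertNone, pow_succ']
    exact Nat.mul_le_mul_left _ ih

lemma card_ball_le (X A : Finset V) (hA : A ⊆ X) (e : ℕ) :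
    (X.powerset.filter (fun D => (A ∆ D).card ≤ e)).card ≤ (X.card + 1) ^ e := by
  refine le_trans ?_ (card_small_le X e)
  refine Finset.card_le_card_of_injOn (fun D => A ∆ D) ?_ ?_
  · intro D hD
    obtain ⟨hD1, hD2⟩ := Finset.mem_filter.1 (Finset.mem_coe.1 hD)
    refine Finset.mem_coe.2 (Finset.mem_filter.2 ⟨?_, hD2⟩)
    rw [Finset.mem_powerset] at hD1 ⊢
    intro x hx
    rcases Finset.mem_symmDiff.1 hx with h | h
    · exact hA h.1
    · exact hD1 h.1
  · intro D _ D' _ h
    exact symmDiff_right_injective A h

/-- A maximal separated family is large. -/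
lemma exists_code (T : Finset (Finset V)) (e K : ℕ)
    (hK : ∀ A ∈ T, (T.filter (fun D => (A ∆ D).card ≤ e)).card ≤ K) :
    ∃ C ⊆ T, (∀ A ∈ C, ∀ B ∈ C, A ≠ B → e < (A ∆ B).card) ∧ T.card ≤ C.card * K := by
  classical
  obtain ⟨C, hC, hmax⟩ := Finset.exists_max_image
    (T.powerset.filter (fun C => ∀ A ∈ C, ∀ B ∈ C, A ≠ B → e < (A ∆ B).card))
    Finset.card ⟨∅, by simp⟩
  obtain ⟨hC1, hC2⟩ := Finset.mem_filter.1 hC
  rw [Finset.mem_powerset] at hC1
  refine ⟨C, hC1, hC2, ?_⟩
  have hcov : T ⊆ C.biUnion (fun A => T.filter (fun D => (A ∆ D).card ≤ e)) := by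
    intro D hD
    by_contra hnot
    have hfar : ∀ A ∈ C, e < (A ∆ D).card := by
      intro A hA
      by_contra hle
      push Not at hle
      exact hnot (Finset.mem_biUnion.2 ⟨A, hA, Finset.mem_filter.2 ⟨hD, hle⟩⟩)
    have hDC : D ∉ C := by
      intro hDC
      have := hfar D hDC
      simp at this
    have h1 := hmax (insert D C) (by
      refine Finset.mem_filter.2 ⟨?_, ?_⟩
      · exact Finset.mem_powerset.2 (Finset.insert_subset hD hC1)
      · intro A hA B hB hAB
        rcases Finset.mem_insert.1 hA with hA' | hA'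
        · rcases Finset.mem_insert.1 hB with hB' | hB'
          · exact absurd (hA'.trans hB'.symm) hAB
          · rw [hA', symmDiff_comm]
            exact hfar B hB'
        · rcases Finset.mem_insert.1 hB with hB' | hB'
          · rw [hB']
            exact hfar A hA'
          · exact hC2 A hA' B hB' hAB)
    rw [Finset.card_insert_of_notMem hDC] at h1
    omega
  refine (Finset.card_le_card hcov).trans ?_
  exact Finset.card_biUnion_le_card_mul _ _ _ (fun A hA => hK A (hC1 hA))

lemma two_pow_mul_descFactorial_le (G z : ℕ) :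
    2 ^ z * G.descFactorial z ≤ (2 * G).descFactorial z := by
  induction z with
  | zero => simp
  | succ z ih =>
    rw [Nat.descFactorial_succ, Nat.descFactorial_succ, pow_succ]
    calc 2 ^ z * 2 * ((G - z) * G.descFactorial z)
        = (2 * (G - z)) * (2 ^ z * G.descFactorial z) := by ring
      _ ≤ (2 * G - z) * (2 * G).descFactorial z := by
          refine Nat.mul_le_mul ?_ ih
          omega

lemma two_pow_mul_choose_le {G z s : ℕ} (h : 2 * G ≤ s) :
    2 ^ z * G.choose z ≤ s.choose z := by
  refine le_trans ?_ (Nat.choose_le_choose z h)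
  have h1 := two_pow_mul_descFactorial_le G z
  rw [Nat.descFactorial_eq_factorial_mul_choose, Nat.descFactorial_eq_factorial_mul_choose] at h1
  have h2 : 0 < z.factorial := Nat.factorial_pos z
  have h3 : z.factorial * (2 ^ z * G.choose z) ≤ z.factorial * (2 * G).choose z := by
    calc z.factorial * (2 ^ z * G.choose z) = 2 ^ z * (z.factorial * G.choose z) := by ring
      _ ≤ _ := h1
  exact Nat.le_of_mul_le_mul_left h3 h2

/-- A partition of `X` into `G` groups of size at most `F`. -/
lemma exists_groups (X : Finset V) {G F : ℕ} (h : X.card ≤ G * F) :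
    ∃ gr : V → ℕ, (∀ x ∈ X, gr x < G) ∧ ∀ g, (X.filter (fun x => gr x = g)).card ≤ F := by
  classical
  let idx : V → ℕ := fun x => if hx : x ∈ X then (X.equivFin ⟨x, hx⟩ : ℕ) else 0
  have hidx : ∀ x ∈ X, idx x < X.card := by
    intro x hx
    simp only [idx, dif_pos hx]
    exact Fin.is_lt _
  have hinj : Set.InjOn idx X := by
    intro x hx y hy hxy
    simp only [idx, dif_pos (Finset.mem_coe.1 hx), dif_pos (Finset.mem_coe.1 hy)] at hxy
    have h1 := X.equivFin.injective (Fin.ext hxy)
    exact congrArg Subtype.val h1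
  refine ⟨fun x => idx x / F, ?_, ?_⟩
  · intro x hx
    have h1 := hidx x hx
    refine Nat.div_lt_of_lt_mul ?_
    rw [mul_comm]
    omega
  · intro g
    have h1 : ((X.filter (fun x => idx x / F = g)).card) ≤ (Finset.Ico (g * F) (g * F + F)).card := by
      refine Finset.card_le_card_of_injOn idx ?_ ?_
      · intro x hx
        obtain ⟨hx1, hx2⟩ := Finset.mem_filter.1 (Finset.mem_coe.1 hx)
        have hlt := hidx x hx1
        have hF : 0 < F := by
          rcases Nat.eq_zero_or_pos F with h0 | h0
          · rw [h0, Nat.mul_zero] at h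
            omega
          · exact h0
        refine Finset.mem_coe.2 (Finset.mem_Ico.2 ⟨?_, ?_⟩)
        · rw [← hx2]
          exact Nat.div_mul_le_self _ _
        · rw [← hx2]
          have h3 := Nat.div_add_mod (idx x) F
          have h4 := Nat.mod_lt (idx x) hF
          rw [mul_comm] at h3
          omega
      · intro x hx y hy hxy
        exact hinj (Finset.mem_coe.2 (Finset.mem_filter.1 (Finset.mem_coe.1 hx)).1)
          (Finset.mem_coe.2 (Finset.mem_filter.1 (Finset.mem_coe.1 hy)).1) hxy
    rw [Nat.card_Ico] at h1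
    change (X.filter (fun x => idx x / F = g)).card ≤ F
    omega

end Pool.Agent.Lib.MP_a7c66d_lc
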