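import Pool.Agent.Lib.MP_a7c66d_lc.Sandwich

/-!
# Iterating the composition step
-/

open scoped symmDiff

namespace Pool.Agent.Lib.MP_a7c66d_lc

section Mono

variable {V : Type*} [DecidableEq V]

lemma Sch.mono {X : Finset V} {k r s k' r' s' : ℕ} (h : Sch X k r s) (hk : k ≤ k') (hr : r ≤ r')
    (hs : s ≤ s') : Sch X k' r' s' := by
  obtain ⟨P, h1, h2, h3⟩ := h
  refine ⟨P, ?_, h2, ?_⟩
  · intro p hp
    exact ⟨(h1 p hp).1.trans hr, (h1 p hp).2.trans hk⟩
  · intro S hS hne hc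
    exact h3 S hS hne (hs.trans hc)

lemma Sandwich.mono {X : Finset V} {κ κ' d w s : ℕ} (h : Sandwich X κ d w s) (hκ : κ ≤ κ') :
    Sandwich X κ' d w s := by
  obtain ⟨Q, h1, h2, h3⟩ := h
  exact ⟨Q, fun q hq => ⟨(h1 q hq).1, (h1 q hq).2.trans hκ⟩, h2, h3⟩

end Mono

variable {V : Type} [Fintype V] [DecidableEq V]

/-- One level of the construction. -/
lemma level {q f g h k : ℕ} (hq : 15 ≤ q) (hfg : f + 2 + h ≤ g) (hm : q ^ (g + h) + 1 ≤ 2 ^ q)
    (hin : ∀ B : Finset V, B.card ≤ q ^ (g + 1) → Sch B k (q ^ f) (q ^ f)) :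
    ∀ X : Finset V, X.card ≤ q ^ (g + h) → Sch X k (q ^ (g + 1)) (q ^ (g + 1)) := by
  intro X hX
  have hq0 : 0 < q := by omega
  set d := 2 * q ^ f + 3 with hd
  set z := q * (3 * d) with hz
  have hf1 : 1 ≤ q ^ f := Nat.one_le_pow _ _ hq0
  have hz1 : z ≤ q ^ (f + 2) := by
    have h1 : 3 * d ≤ 15 * q ^ f := by omega
    calc z = q * (3 * d) := rfl
      _ ≤ q * (15 * q ^ f) := Nat.mul_le_mul_left _ h1
      _ ≤ q * (q * q ^ f) := Nat.mul_le_mul_left _ (Nat.mul_le_mul_right _ hq)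
      _ = q ^ (f + 2) := by ring
  have hzg : z ≤ q ^ g := hz1.trans (Nat.pow_le_pow_right hq0 (by omega))
  have hzF : z * q ^ h ≤ q ^ g := by
    calc z * q ^ h ≤ q ^ (f + 2) * q ^ h := Nat.mul_le_mul_right _ hz1
      _ = q ^ (f + 2 + h) := by rw [← pow_add]
      _ ≤ q ^ g := Nat.pow_le_pow_right hq0 hfg
  have hg3 : 3 * q ^ g ≤ q ^ (g + 1) := by
    rw [pow_succ, mul_comm]
    exact Nat.mul_le_mul_left _ (by omega)
  have hfg' : q ^ f ≤ q ^ g := Nat.pow_le_pow_right hq0 (by omega)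
  have hg1 : 1 ≤ q ^ g := Nat.one_le_pow _ _ hq0
  have hsand : Sandwich X (2 * q ^ g + z * q ^ h) d (2 * q ^ g) (2 * q ^ g + z) := by
    refine sandwich X (m := q ^ (g + h)) (G := q ^ g) hX (Nat.one_le_pow _ _ hq0) (by omega)
      ?_ (by omega) hzg (by rw [pow_add])
    calc (q ^ (g + h) + 1) ^ (3 * d) ≤ (2 ^ q) ^ (3 * d) := Nat.pow_le_pow_left hm _
      _ = 2 ^ z := by rw [← pow_mul]
  have hstep := sch_step (X := X) (κ := q ^ (g + 1)) (k := k) (r := q ^ f) (w := 2 * q ^ g)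
    (s := 2 * q ^ g + z) (s₀ := q ^ f) (by omega) (by omega) hin (hsand.mono (by omega))
  exact hstep.mono le_rfl (by omega) (by omega)

/-- The tower of levels. -/
lemma tower {q L : ℕ} (hq : 15 ≤ q) (hm : q ^ (4 * L * (L + 1)) + 1 ≤ 2 ^ q) :
    ∀ j u : ℕ, j ≤ L → u + 2 * j = 4 * L →
      ∀ X : Finset V, X.card ≤ q ^ ((j + 1) * u) →
        Sch X (q ^ (4 * L)) (q ^ (j * (u + 2))) (q ^ (j * (u + 2))) := by
  have hq0 : 0 < q := by omega
  intro j
  induction j with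
  | zero =>
    intro u _ hu X hX
    have hu' : u = 4 * L := by omega
    subst hu'
    rw [zero_add, one_mul] at hX
    refine (sch_base X).mono hX ?_ ?_
    · simp
    · simp
  | succ j ih =>
    intro u hj hu X hX
    have hin := ih (u + 2) (by omega) (by omega)
    -- `g + 1 = (j + 1) * (u + 2)`, `h = u - 2 j - 1`
    obtain ⟨h, hh⟩ : ∃ h, u = h + 2 * j + 1 := ⟨u - 2 * j - 1, by omega⟩
    have hg : (j + 1) * (u + 2) = ((j + 1) * u + 2 * j + 1) + 1 := by ring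
    have hgh : ((j + 1) * u + 2 * j + 1) + h = (j + 1 + 1) * u := by
      have : (j + 1 + 1) * u = (j + 1) * u + u := by ring
      omega
    have hexp : (j + 1 + 1) * u ≤ 4 * L * (L + 1) := by
      calc (j + 1 + 1) * u ≤ (L + 1) * (4 * L) := Nat.mul_le_mul (by omega) (by omega)
        _ = 4 * L * (L + 1) := by ring
    rw [hg]
    refine level (f := j * (u + 2 + 2)) (h := h) hq ?_ ?_ ?_ X ?_
    · have : j * (u + 2 + 2) = j * u + 4 * j := by ring
      have h2 : (j + 1) * u = j * u + u := by ring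
      omega
    · rw [hgh]
      exact (Nat.add_le_add_right (Nat.pow_le_pow_right hq0 hexp) 1).trans hm
    · intro B hB
      rw [← hg] at hB
      exact hin B hB
    · rw [hgh]
      exact hX

/-- The final star forests. -/
theorem exists_forest {q L : ℕ} (hq : 15 ≤ q) (hm : q ^ (4 * L * (L + 1)) + 1 ≤ 2 ^ q) :
    ∀ j u : ℕ, j ≤ L → u + 2 * j = 4 * L →
      ∀ X : Finset V, X.Nonempty → X.card ≤ q ^ ((j + 1) * u) →
        ∃ P : Set (Finset V × Finset V), (∀ p ∈ P, p.2.card ≤ q ^ (4 * L)) ∧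
          (∀ p ∈ P, ∀ p' ∈ P, p ≠ p' → 3 ≤ (p.1 ∆ p'.1).card) ∧ Win (edgeRel P) ∅ X := by
  intro j
  induction j with
  | zero =>
    intro u hj hu X hne hX
    obtain ⟨P, h1, h2, h3⟩ := tower hq hm 0 u hj hu X hX
    refine ⟨P, fun p hp => (h1 p hp).2, h2, h3 X (Finset.Subset.refl X) hne ?_⟩
    rw [zero_mul, pow_zero]
    exact Finset.card_pos.2 hne
  | succ j ih =>
    intro u hj hu X hne hX
    rcases le_or_gt (q ^ ((j + 1) * (u + 2))) X.card with hge | hlt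
    · obtain ⟨P, h1, h2, h3⟩ := tower hq hm (j + 1) u hj hu X hX
      exact ⟨P, fun p hp => (h1 p hp).2, h2, h3 X (Finset.Subset.refl X) hne hge⟩
    · exact ih (u + 2) (by omega) (by omega) X hne hlt.le

end Pool.Agent.Lib.MP_a7c66d_lc
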