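import Pool.Agent.Lib.MP_a7c66d_lc.Levels

/-!
# From winning positions to strategies
-/

open scoped symmDiff

namespace Pool.Agent.Lib.MP_a7c66d_lc

section Degree

variable {V : Type*} [Fintype V] [DecidableEq V]

open scoped Classical in
/-- In a star forest every vertex is incident to few edges. -/
lemma degree_le {P : Set (Finset V × Finset V)} {k : ℕ} (hk : 1 ≤ k)
    (h1 : ∀ p ∈ P, p.2.card ≤ k) (h2 : ∀ p ∈ P, ∀ q ∈ P, p ≠ q → 3 ≤ (p.1 ∆ q.1).card)
    (x : Finset V) : (Finset.univ.filter (fun i => edgeRel P x i)).card ≤ k := by
  -- two pairs used at `x` are equal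
  have huniq : ∀ p ∈ P, ∀ q ∈ P, ∀ i j : V, (∀ l, l ≠ i → (l ∈ x ↔ l ∈ p.1)) →
      (∀ l, l ≠ j → (l ∈ x ↔ l ∈ q.1)) → p = q := by
    intro p hp q hq i j hi hj
    by_contra hne
    have h3 := h2 p hp q hq hne
    have h4 : p.1 ∆ q.1 ⊆ {i, j} := by
      intro l hl
      by_contra hlij
      rw [Finset.mem_insert, Finset.mem_singleton, not_or] at hlij
      have h5 := hi l hlij.1
      have h6 := hj l hlij.2
      rw [Finset.mem_symmDiff] at hl
      tauto
    have h5 := (Finset.card_le_card h4).trans Finset.card_le_two
    omega
  by_cases hx : ∃ p ∈ P, p.1 = x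
  · obtain ⟨p, hp, rfl⟩ := hx
    refine (Finset.card_le_card ?_).trans (h1 p hp)
    intro i hi
    obtain ⟨q, hq, hiq, hq'⟩ := (Finset.mem_filter.1 hi).2
    have : p = q := huniq p hp q hq i i (fun _ _ => Iff.rfl) hq'
    rw [this]
    exact hiq
  · refine le_trans (Finset.card_le_one.2 ?_) hk
    intro i hi j hj
    obtain ⟨p, hp, -, hp'⟩ := (Finset.mem_filter.1 hi).2
    obtain ⟨q, hq, -, hq'⟩ := (Finset.mem_filter.1 hj).2
    have hpq : p = q := huniq p hp q hq i j hp' hq'
    subst hpq
    by_contra hij
    refine hx ⟨p, hp, ?_⟩
    ext l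
    by_cases hl : l = i
    · exact (hq' l (by rw [hl]; exact hij)).symm
    · exact (hp' l hl).symm

end Degree

section Strategy

variable {V : Type*} [DecidableEq V]

lemma Win.exists_choice {R : Finset V → V → Prop} {x S : Finset V} (h : Win R x S)
    (hS : 2 ≤ S.card) :
    ∃ f : V → Bool, ∀ i ∈ S, Win R (upd x i (f i)) (S.erase i) := by
  cases h with
  | last _ i _ =>
    rw [Finset.card_singleton] at hS
    omega
  | step _ _ _ f h => exact ⟨f, h⟩

lemma Win.of_singleton {R : Finset V → V → Prop} {x : Finset V} {i : V} (h : Win R x {i}) :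
    R x i := by
  generalize hS : ({i} : Finset V) = S at h
  cases h with
  | last _ j h =>
    rw [Finset.singleton_injective hS]
    exact h
  | step _ _ hS' f _ =>
    rw [← hS, Finset.card_singleton] at hS'
    omega

variable [Fintype V]

open scoped Classical in
/-- The bits chosen in the position `(x, S)`. -/
noncomputable def pick (R : Finset V → V → Prop) (x S : Finset V) : V → Bool :=
  if h : ∃ f : V → Bool, ∀ i ∈ S, Win R (upd x i (f i)) (S.erase i) then h.choose
  else fun _ => false

/-- One arrival. -/
noncomputable def arrive (R : Finset V → V → Prop) (p : Finset V × Finset V) (i : V) :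
    Finset V × Finset V :=
  (upd p.1 i (pick R p.1 p.2 i), p.2.erase i)

/-- The position after the arrival of the coordinates in a list. -/
noncomputable def posOf (R : Finset V → V → Prop) (l : List V) : Finset V × Finset V :=
  l.foldl (arrive R) (∅, Finset.univ)

open scoped Classical in
/-- Alice's strategy. -/
noncomputable def strat (R : Finset V → V → Prop) (l : List V) : Bool :=
  decide (∃ i, l.getLast? = some i ∧ i ∈ (posOf R l).1)

lemma strat_concat (R : Finset V → V → Prop) (l : List V) (i : V) :
    strat R (l ++ [i]) = true ↔ i ∈ (posOf R (l ++ [i])).1 := by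
  unfold strat
  rw [decide_eq_true_iff]
  constructor
  · rintro ⟨j, hj, hj'⟩
    have h : i = j := by simpa using hj
    rw [h]
    rw [h] at hj'
    exact hj'
  · intro h
    exact ⟨i, by simp, h⟩

lemma posOf_concat (R : Finset V → V → Prop) (l : List V) (i : V) :
    posOf R (l ++ [i]) = arrive R (posOf R l) i := by
  unfold posOf
  rw [List.foldl_append]
  rfl

lemma posOf_snd (R : Finset V → V → Prop) (l : List V) :
    (posOf R l).2 = Finset.univ \ l.toFinset := by
  induction l using List.reverseRecOn with
  | nil => simp [posOf]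
  | append_singleton l i ih =>
    rw [posOf_concat]
    change (posOf R l).2.erase i = _
    rw [ih]
    ext j
    simp only [Finset.mem_erase, Finset.mem_sdiff, Finset.mem_univ, true_and, List.mem_toFinset,
      List.mem_append, List.mem_singleton]
    tauto

lemma posOf_win {R : Finset V → V → Prop} (h : Win R ∅ Finset.univ) (l : List V)
    (hl : l.Nodup) (hc : l.length < Fintype.card V) :
    Win R (posOf R l).1 (posOf R l).2 := by
  induction l using List.reverseRecOn with
  | nil => exact h
  | append_singleton l i ih =>
    rw [List.length_append, List.length_singleton] at hc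
    have hl' : l.Nodup := (List.nodup_append.1 hl).1
    have hi : i ∉ l := by
      intro hi
      exact (List.nodup_append.1 hl).2.2 i hi i (List.mem_singleton_self i) rfl
    have hw := ih hl' (by omega)
    have hcard : 2 ≤ (posOf R l).2.card := by
      rw [posOf_snd, Finset.card_sdiff_of_subset (Finset.subset_univ _), Finset.card_univ,
        List.toFinset_card_of_nodup hl']
      omega
    have hex := hw.exists_choice hcard
    rw [posOf_concat]
    change Win R (upd (posOf R l).1 i (pick R (posOf R l).1 (posOf R l).2 i))
      ((posOf R l).2.erase i)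
    unfold pick
    rw [dif_pos hex]
    refine hex.choose_spec i ?_
    rw [posOf_snd]
    simp [hi]

end Strategy

end Pool.Agent.Lib.MP_a7c66d_lc
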