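import Mathlib

/-!
# Uniform measure on a finite function space
-/

namespace Pool.Agent.Lib.MP_a7c66d_lc

/-- The proportion of functions `ω : I → Y` with the property `P`. -/
noncomputable def mu {I Y : Type*} (P : (I → Y) → Prop) : ℝ :=
  ({ω | P ω}.ncard : ℝ) / (Nat.card (I → Y) : ℝ)

section

variable {I Y : Type*}

lemma mu_nonneg (P : (I → Y) → Prop) : 0 ≤ mu P := by
  unfold mu
  positivity

variable [Finite I] [Finite Y]

lemma mu_mono {P Q : (I → Y) → Prop} (h : ∀ ω, P ω → Q ω) : mu P ≤ mu Q := by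
  unfold mu
  refine div_le_div_of_nonneg_right ?_ (by positivity)
  exact_mod_cast Set.ncard_le_ncard h

variable [Nonempty Y]

lemma cardOmega_pos (I Y : Type*) [Finite I] [Finite Y] [Nonempty Y] :
    (0 : ℝ) < (Nat.card (I → Y) : ℝ) := by
  exact_mod_cast Nat.card_pos

lemma mu_not (P : (I → Y) → Prop) : mu (fun ω => ¬ P ω) = 1 - mu P := by
  unfold mu
  have h := Set.ncard_add_ncard_compl {ω | P ω}
  have h' : ({ω | P ω}.ncard : ℝ) + ({ω | ¬ P ω}.ncard : ℝ) = (Nat.card (I → Y) : ℝ) := by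
    exact_mod_cast h
  have hpos := cardOmega_pos I Y
  rw [← h'] at hpos ⊢
  field_simp
  ring

lemma mu_le_one (P : (I → Y) → Prop) : mu P ≤ 1 := by
  have h := mu_nonneg (fun ω => ¬ P ω)
  rw [mu_not] at h
  linarith

omit [Nonempty Y] in
/-- Union bound. -/
lemma mu_exists_le {ι : Type*} (T : Finset ι) (P : ι → (I → Y) → Prop) :
    mu (fun ω => ∃ t ∈ T, P t ω) ≤ ∑ t ∈ T, mu (P t) := by
  classical
  induction T using Finset.induction_on with
  | empty =>
    simp [mu]
  | insert a T ha ih =>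
    rw [Finset.sum_insert ha]
    refine le_trans ?_ (add_le_add_right ih _)
    unfold mu
    rw [← add_div]
    refine div_le_div_of_nonneg_right ?_ (by positivity)
    have h1 : {ω : I → Y | ∃ t ∈ insert a T, P t ω} ⊆ {ω | P a ω} ∪ {ω | ∃ t ∈ T, P t ω} := by
      rintro ω ⟨t, ht, hP⟩
      rcases Finset.mem_insert.1 ht with rfl | ht
      · exact Or.inl hP
      · exact Or.inr ⟨t, ht, hP⟩
    have h2 := (Set.ncard_le_ncard h1).trans (Set.ncard_union_le _ _)
    exact_mod_cast h2

/-- `P` only depends on the coordinates in `N`. -/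
def DependsOn (P : (I → Y) → Prop) (N : Set I) : Prop :=
  ∀ ω ω' : I → Y, (∀ i ∈ N, ω i = ω' i) → (P ω ↔ P ω')

omit [Finite I] [Finite Y] [Nonempty Y] in
lemma DependsOn.mono {P : (I → Y) → Prop} {N N' : Set I} (h : DependsOn P N) (hN : N ⊆ N') :
    DependsOn P N' := fun ω ω' hω => h ω ω' (fun i hi => hω i (hN hi))

omit [Finite I] [Finite Y] [Nonempty Y] in
lemma DependsOn.not {P : (I → Y) → Prop} {N : Set I} (h : DependsOn P N) :
    DependsOn (fun ω => ¬ P ω) N := fun ω ω' hω => not_congr (h ω ω' hω)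

/-- Independence of events that depend on disjoint sets of coordinates. -/
lemma mu_and (P Q : (I → Y) → Prop) (N : Set I) (hP : DependsOn P N) (hQ : DependsOn Q Nᶜ) :
    mu (fun ω => P ω ∧ Q ω) = mu P * mu Q := by
  classical
  have key : {ω | P ω}.ncard * {ω | Q ω}.ncard =
      {ω | P ω ∧ Q ω}.ncard * Nat.card (I → Y) := by
    rw [← Set.ncard_univ (I → Y), ← Set.ncard_prod, ← Set.ncard_prod]
    let mix : (I → Y) → (I → Y) → (I → Y) := fun a b i => if i ∈ N then a i else b i
    have hPm : ∀ a b, P (mix a b) ↔ P a := by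
      intro a b
      refine hP _ _ ?_
      intro i hi
      simp [mix, hi]
    have hQm : ∀ a b, Q (mix a b) ↔ Q b := by
      intro a b
      refine hQ _ _ ?_
      intro i hi
      have : i ∉ N := hi
      simp [mix, this]
    have hmm : ∀ a b, mix (mix a b) (mix b a) = a := by
      intro a b
      funext i
      by_cases hi : i ∈ N <;> simp [mix, hi]
    refine Set.BijOn.ncard_eq (f := fun p => (mix p.1 p.2, mix p.2 p.1)) ⟨?_, ?_, ?_⟩
    · rintro ⟨a, b⟩ ⟨ha, hb⟩
      exact ⟨⟨(hPm a b).2 ha, (hQm a b).2 hb⟩, Set.mem_univ _⟩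
    · rintro ⟨a, b⟩ _ ⟨a', b'⟩ _ h
      have h1 : mix a b = mix a' b' := congrArg Prod.fst h
      have h2 : mix b a = mix b' a' := congrArg Prod.snd h
      have h3 := hmm a b
      have h4 := hmm b a
      rw [h1, h2, hmm] at h3
      rw [h1, h2, hmm] at h4
      rw [h3, h4]
    · rintro ⟨a, b⟩ ⟨⟨ha, hb⟩, -⟩
      refine ⟨(mix a b, mix b a), ⟨(hPm a b).2 ha, (hQm b a).2 hb⟩, ?_⟩
      exact Prod.ext (hmm a b) (hmm b a)
  have hpos := cardOmega_pos I Y
  unfold mu
  rw [div_mul_div_comm, div_eq_div_iff hpos.ne' (by positivity)]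
  have key' : ({ω | P ω}.ncard : ℝ) * ({ω | Q ω}.ncard : ℝ) =
      ({ω | P ω ∧ Q ω}.ncard : ℝ) * (Nat.card (I → Y) : ℝ) := by
    exact_mod_cast key
  rw [key']
  ring

/-- Many independent events, each of probability at least `q`, all fail with probability at most
`(1 - q) ^ (number of events)`. -/
lemma mu_forall_not_le {ι : Type*} (A : Finset ι) (E : ι → (I → Y) → Prop) (N : ι → Set I)
    {q : ℝ} (hq1 : q ≤ 1) (hE : ∀ a ∈ A, DependsOn (E a) (N a))
    (hN : ∀ a ∈ A, ∀ b ∈ A, a ≠ b → Disjoint (N a) (N b)) (hq : ∀ a ∈ A, q ≤ mu (E a)) :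
    mu (fun ω => ∀ a ∈ A, ¬ E a ω) ≤ (1 - q) ^ A.card := by
  classical
  induction A using Finset.induction_on with
  | empty =>
    refine (mu_le_one _).trans ?_
    simp
  | insert a A ha ih =>
    have h1 : mu (fun ω => ∀ b ∈ insert a A, ¬ E b ω) =
        mu (fun ω => ¬ E a ω ∧ ∀ b ∈ A, ¬ E b ω) := by
      congr 1
      funext ω
      rw [Finset.forall_mem_insert]
    have h2 : mu (fun ω => ¬ E a ω ∧ ∀ b ∈ A, ¬ E b ω) =
        mu (fun ω => ¬ E a ω) * mu (fun ω => ∀ b ∈ A, ¬ E b ω) := by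
      refine mu_and _ _ (N a) (hE a (Finset.mem_insert_self a A)).not ?_
      intro ω ω' hω
      refine forall₂_congr ?_
      intro b hb
      have hab : a ≠ b := by
        rintro rfl
        exact ha hb
      refine not_congr (hE b (Finset.mem_insert_of_mem hb) ω ω' ?_)
      intro i hi
      refine hω i ?_
      intro hia
      exact (Set.disjoint_left.1 (hN a (Finset.mem_insert_self a A) b
        (Finset.mem_insert_of_mem hb) hab)) hia hi
    rw [h1, h2, Finset.card_insert_of_notMem ha, pow_succ', mu_not]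
    refine mul_le_mul ?_ (ih (fun b hb => hE b (Finset.mem_insert_of_mem hb))
      (fun b hb c hc => hN b (Finset.mem_insert_of_mem hb) c (Finset.mem_insert_of_mem hc))
      (fun b hb => hq b (Finset.mem_insert_of_mem hb))) (mu_nonneg _) (by linarith)
    linarith [hq a (Finset.mem_insert_self a A)]

/-- The probability of an event at one coordinate. -/
lemma mu_coord (a : I) (T : Set Y) :
    mu (fun ω : I → Y => ω a ∈ T) = (T.ncard : ℝ) / (Nat.card Y : ℝ) := by
  classical
  have hY : (0 : ℝ) < (Nat.card Y : ℝ) := by exact_mod_cast Nat.card_pos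
  have h2 : {ω : I → Y | ω a ∈ T}.ncard * Nat.card Y = T.ncard * Nat.card (I → Y) := by
    rw [← Set.ncard_univ Y, ← Set.ncard_univ (I → Y), ← Set.ncard_prod, ← Set.ncard_prod]
    refine Set.BijOn.ncard_eq (f := fun p => (p.1 a, Function.update p.1 a p.2)) ⟨?_, ?_, ?_⟩
    · rintro ⟨ω, y⟩ ⟨h, -⟩
      exact ⟨h, Set.mem_univ _⟩
    · rintro ⟨ω, y⟩ _ ⟨ω', y'⟩ _ h
      have h1 : ω a = ω' a := congrArg Prod.fst h
      have h2 : Function.update ω a y = Function.update ω' a y' := congrArg Prod.snd h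
      have h3 : y = y' := by
        have := congrFun h2 a
        simpa using this
      refine Prod.ext ?_ h3
      funext i
      by_cases hi : i = a
      · rw [hi]
        exact h1
      · have := congrFun h2 i
        simpa [hi] using this
    · rintro ⟨t, ω⟩ ⟨ht, -⟩
      refine ⟨(Function.update ω a t, ω a), ⟨?_, Set.mem_univ _⟩, ?_⟩
      · simpa using ht
      · refine Prod.ext ?_ ?_
        · simp
        · simp
  unfold mu
  rw [div_eq_div_iff (cardOmega_pos I Y).ne' hY.ne']
  exact_mod_cast h2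

end

end Pool.Agent.Lib.MP_a7c66d_lc
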