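import Pool.Agent.Lib.MP_a7c66d_lc.Win
import Pool.Agent.Lib.MP_a7c66d_lc.Prob
import Pool.Agent.Lib.MP_a7c66d_lc.Count

/-!
# Existence of sandwich families
-/

open scoped symmDiff

namespace Pool.Agent.Lib.MP_a7c66d_lc

variable {V : Type} [Fintype V] [DecidableEq V]

/-- The conflicting neighbours of `A`. -/
def nbr (X : Finset V) (w d : ℕ) (A : Finset V) : Finset (Finset V) :=
  (X.powersetCard w).filter (fun A' => A' ≠ A ∧ (A ∆ A').card < d)

omit [Fintype V] in
lemma card_nbr_le {X A : Finset V} {w d m : ℕ} (hX : X.card ≤ m) (hA : A ⊆ X) :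
    (nbr X w d A).card ≤ (m + 1) ^ (d - 1) := by
  have h1 : nbr X w d A ⊆ X.powerset.filter (fun D => (A ∆ D).card ≤ d - 1) := by
    intro D hD
    obtain ⟨hD1, -, hD3⟩ := Finset.mem_filter.1 hD
    refine Finset.mem_filter.2 ⟨?_, by omega⟩
    exact Finset.mem_powerset.2 (Finset.mem_powersetCard.1 hD1).1
  refine (Finset.card_le_card h1).trans ((card_ball_le X A hA (d - 1)).trans ?_)
  exact Nat.pow_le_pow_left (by omega) _

lemma numeric {m d z M c : ℕ} (hm : 1 ≤ m) (hd : 1 ≤ d) (hM : 0 < M)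
    (hz : (m + 1) ^ (3 * d) ≤ 2 ^ z) (hc : 2 ^ z * M ≤ c * (m + 1) ^ (2 * d - 2)) :
    (m : ℝ) ≤ (c : ℝ) * (1 / (2 * ((2 * (m + 1) ^ (d - 1) + 1 : ℕ) * M : ℝ))) := by
  -- `(m+1)^(d+2) * M ≤ c`
  have h1 : (m + 1) ^ (d + 2) * M ≤ c := by
    have h2 : (m + 1) ^ (3 * d) = (m + 1) ^ (d + 2) * (m + 1) ^ (2 * d - 2) := by
      rw [← pow_add]
      congr 1
      omega
    have h3 : (m + 1) ^ (2 * d - 2) * ((m + 1) ^ (d + 2) * M) ≤ (m + 1) ^ (2 * d - 2) * c := by
      calc (m + 1) ^ (2 * d - 2) * ((m + 1) ^ (d + 2) * M)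
          = (m + 1) ^ (3 * d) * M := by rw [h2]; ring
        _ ≤ 2 ^ z * M := Nat.mul_le_mul_right _ hz
        _ ≤ c * (m + 1) ^ (2 * d - 2) := hc
        _ = (m + 1) ^ (2 * d - 2) * c := mul_comm _ _
    exact Nat.le_of_mul_le_mul_left h3 (by positivity)
  have h4 : m * (2 * ((2 * (m + 1) ^ (d - 1) + 1) * M)) ≤ c := by
    refine le_trans ?_ h1
    have h5 : (m + 1) ^ (d + 2) = (m + 1) ^ (d - 1) * (m + 1) ^ 3 := by
      rw [← pow_add]
      congr 1
      omega
    have h6 : 1 ≤ (m + 1) ^ (d - 1) := Nat.one_le_pow _ _ (by omega)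
    have h7 : 6 * m ≤ (m + 1) ^ 3 := by
      nlinarith [Nat.le_mul_self m, Nat.zero_le (m ^ 3)]
    calc m * (2 * ((2 * (m + 1) ^ (d - 1) + 1) * M))
        ≤ m * (2 * ((2 * (m + 1) ^ (d - 1) + (m + 1) ^ (d - 1)) * M)) := by gcongr
      _ = (m + 1) ^ (d - 1) * (6 * m) * M := by ring
      _ ≤ (m + 1) ^ (d - 1) * (m + 1) ^ 3 * M := by gcongr
      _ = (m + 1) ^ (d + 2) * M := by rw [h5]
  have h8 : ((m * (2 * ((2 * (m + 1) ^ (d - 1) + 1) * M)) : ℕ) : ℝ) ≤ (c : ℝ) := by
    exact_mod_cast h4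
  rw [mul_one_div, le_div_iff₀ (by positivity)]
  push_cast at h8 ⊢
  linarith

theorem sandwich (X : Finset V) {m d w z G F : ℕ} (hX : X.card ≤ m) (hm : 1 ≤ m) (hd : 1 ≤ d)
    (hz : (m + 1) ^ (3 * d) ≤ 2 ^ z) (hG : 2 * G ≤ w + z) (hzG : z ≤ G) (hF : m ≤ G * F) :
    Sandwich X (w + z * F) d w (w + z) := by
  classical
  obtain ⟨gr, hgr1, hgr2⟩ := exists_groups X (hX.trans hF)
  let 𝒰 : Finset (Finset ℕ) := (Finset.range G).powersetCard z
  let M : ℕ := G.choose z
  have hM : 0 < M := Nat.choose_pos hzG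
  have h𝒰 : 𝒰.card = M := by
    simp only [𝒰, M, Finset.card_powersetCard, Finset.card_range]
  let Q : ℕ := 2 * (m + 1) ^ (d - 1)
  let Y : Type := Fin (Q + 1) × 𝒰
  have h𝒰ne : Nonempty 𝒰 := by
    obtain ⟨U, hU⟩ := Finset.card_pos.1 (by rw [h𝒰]; exact hM : 0 < 𝒰.card)
    exact ⟨⟨U, hU⟩⟩
  have hYne : Nonempty Y := inferInstanceAs (Nonempty (Fin (Q + 1) × 𝒰))
  have hYfin : Finite Y := inferInstanceAs (Finite (Fin (Q + 1) × 𝒰))
  have hYcard : Nat.card Y = (Q + 1) * M := by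
    change Nat.card (Fin (Q + 1) × 𝒰) = _
    rw [Nat.card_prod, Nat.card_fin, Nat.card_eq_fintype_card, Fintype.card_coe, h𝒰]
  let T : Finset ℕ → Finset V := fun U => X.filter (fun x => gr x ∈ U)
  have hT : ∀ U ∈ 𝒰, (T U).card ≤ z * F := by
    intro U hU
    have hUc : U.card = z := (Finset.mem_powersetCard.1 hU).2
    have h1 : T U ⊆ U.biUnion (fun g => X.filter (fun x => gr x = g)) := by
      intro x hx
      obtain ⟨hx1, hx2⟩ := Finset.mem_filter.1 hx
      exact Finset.mem_biUnion.2 ⟨gr x, hx2, Finset.mem_filter.2 ⟨hx1, rfl⟩⟩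
    refine (Finset.card_le_card h1).trans ?_
    rw [← hUc]
    exact Finset.card_biUnion_le_card_mul _ _ _ (fun g _ => hgr2 g)
  -- the good territory
  have hU0 : ∀ S : Finset V, ∀ A : Finset V, S ⊆ X → S.card = w + z → A ⊆ S → A.card = w →
      ∃ u : 𝒰, S ⊆ A ∪ T u.1 := by
    intro S A hSX hSc hAS hAc
    have h1 : ((S \ A).image gr).card ≤ z := by
      refine Finset.card_image_le.trans ?_
      rw [Finset.card_sdiff_of_subset hAS]
      omega
    have h2 : (S \ A).image gr ⊆ Finset.range G := by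
      intro g hg
      obtain ⟨x, hx, rfl⟩ := Finset.mem_image.1 hg
      exact Finset.mem_range.2 (hgr1 x (hSX (Finset.mem_sdiff.1 hx).1))
    obtain ⟨U, hU1, hU2, hU3⟩ := Finset.exists_subsuperset_card_eq h2 h1 (by simpa using hzG)
    refine ⟨⟨U, Finset.mem_powersetCard.2 ⟨hU2, hU3⟩⟩, ?_⟩
    intro x hx
    by_cases hxA : x ∈ A
    · exact Finset.mem_union_left _ hxA
    · refine Finset.mem_union_right _ (Finset.mem_filter.2 ⟨hSX hx, ?_⟩)
      exact hU1 (Finset.mem_image_of_mem gr (Finset.mem_sdiff.2 ⟨hx, hxA⟩))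
  -- selected sets
  let sel : (Finset V → Y) → Finset V → Prop := fun ω A =>
    (ω A).1 = 0 ∧ ∀ A' ∈ nbr X w d A, (ω A').1 ≠ 0
  -- it is enough to find a good function
  suffices hω : ∃ ω : Finset V → Y, ∀ S ∈ X.powersetCard (w + z), ∃ A ∈ S.powersetCard w,
      sel ω A ∧ S ⊆ A ∪ T (ω A).2.1 by
    obtain ⟨ω, hω⟩ := hω
    refine ⟨{p | ∃ A ∈ X.powersetCard w, sel ω A ∧ p = (A, A ∪ T (ω A).2.1)}, ?_, ?_, ?_⟩
    · rintro p ⟨A, hA, -, rfl⟩
      have hAc := (Finset.mem_powersetCard.1 hA).2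
      refine ⟨hAc.le, ?_⟩
      refine (Finset.card_union_le _ _).trans ?_
      have := hT _ (ω A).2.2
      omega
    · rintro p ⟨A, hA, hsA, rfl⟩ q ⟨A', hA', hsA', rfl⟩ hne
      have hAA : A' ≠ A := by
        rintro rfl
        exact hne rfl
      by_contra hlt
      push Not at hlt
      exact hsA.2 A' (Finset.mem_filter.2 ⟨hA', hAA, hlt⟩) hsA'.1
    · intro S hS hSc
      obtain ⟨A, hA, hs, hSA⟩ := hω S (Finset.mem_powersetCard.2 ⟨hS, hSc⟩)
      obtain ⟨hAS, hAc⟩ := Finset.mem_powersetCard.1 hA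
      exact ⟨_, ⟨A, Finset.mem_powersetCard.2 ⟨hAS.trans hS, hAc⟩, hs, rfl⟩, hAS, hSA⟩
  -- codes inside the sets `S`
  have hcode : ∀ S ∈ X.powersetCard (w + z), ∃ C ⊆ S.powersetCard w,
      (∀ A ∈ C, ∀ B ∈ C, A ≠ B → 2 * d - 2 < (A ∆ B).card) ∧
      2 ^ z * M ≤ C.card * (m + 1) ^ (2 * d - 2) := by
    intro S hS
    obtain ⟨hSX, hSc⟩ := Finset.mem_powersetCard.1 hS
    obtain ⟨C, hC1, hC2, hC3⟩ := exists_code (S.powersetCard w) (2 * d - 2)
      ((m + 1) ^ (2 * d - 2)) (by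
        intro A hA
        have hAS := (Finset.mem_powersetCard.1 hA).1
        have h1 : (S.powersetCard w).filter (fun D => (A ∆ D).card ≤ 2 * d - 2) ⊆
            S.powerset.filter (fun D => (A ∆ D).card ≤ 2 * d - 2) := by
          intro D hD
          obtain ⟨hD1, hD2⟩ := Finset.mem_filter.1 hD
          exact Finset.mem_filter.2
            ⟨Finset.mem_powerset.2 (Finset.mem_powersetCard.1 hD1).1, hD2⟩
        refine (Finset.card_le_card h1).trans ((card_ball_le S A hAS _).trans ?_)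
        refine Nat.pow_le_pow_left ?_ _
        have := Finset.card_le_card hSX
        omega)
    refine ⟨C, hC1, hC2, le_trans ?_ hC3⟩
    rw [Finset.card_powersetCard, hSc]
    have h2 : (w + z).choose w = (w + z).choose z := by
      rw [Nat.choose_symm_add]
    rw [h2]
    exact two_pow_mul_choose_le hG
  choose! C hC1 hC2 hC3 using hcode
  choose! u0 hu0 using hU0
  -- the events
  let E : Finset V → Finset V → (Finset V → Y) → Prop := fun S A ω =>
    ω A ∈ ({((0 : Fin (Q + 1)), u0 S A)} : Set Y) ∧ ∀ A' ∈ nbr X w d A, (ω A').1 ≠ 0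
  let q : ℝ := 1 / (2 * ((2 * (m + 1) ^ (d - 1) + 1 : ℕ) * M : ℝ))
  have hq0 : 0 < q := by positivity
  have hEq : ∀ S ∈ X.powersetCard (w + z), ∀ A ∈ C S, q ≤ mu (E S A) := by
    intro S hS A hA
    obtain ⟨hSX, hSc⟩ := Finset.mem_powersetCard.1 hS
    obtain ⟨hAS, hAc⟩ := Finset.mem_powersetCard.1 (hC1 S hS hA)
    have h1 : mu (E S A) = mu (fun ω : Finset V → Y =>
        ω A ∈ ({((0 : Fin (Q + 1)), u0 S A)} : Set Y)) *
        mu (fun ω : Finset V → Y => ∀ A' ∈ nbr X w d A, (ω A').1 ≠ 0) := by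
      refine mu_and _ _ {A} ?_ ?_
      · intro ω ω' h
        have h' : ω A = ω' A := h A rfl
        simp only [h']
      · intro ω ω' h
        refine forall₂_congr ?_
        intro A' hA'
        have hne : A' ≠ A := (Finset.mem_filter.1 hA').2.1
        rw [h A' hne]
    have h2 : mu (fun ω : Finset V → Y => ω A ∈ ({((0 : Fin (Q + 1)), u0 S A)} : Set Y)) =
        1 / (((Q + 1 : ℕ) : ℝ) * M) := by
      rw [mu_coord, Set.ncard_singleton, hYcard]
      push_cast
      rfl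
    have h3 : (1 : ℝ) / 2 ≤
        mu (fun ω : Finset V → Y => ∀ A' ∈ nbr X w d A, (ω A').1 ≠ 0) := by
      have h4 : mu (fun ω : Finset V → Y => ∀ A' ∈ nbr X w d A, (ω A').1 ≠ 0) =
          mu (fun ω : Finset V → Y => ¬ ∃ A' ∈ nbr X w d A, ω A' ∈ {y : Y | y.1 = 0}) := by
        congr 1
        funext ω
        simp
      rw [h4, mu_not]
      have h5 : ∀ A' : Finset V, mu (fun ω : Finset V → Y => ω A' ∈ {y : Y | y.1 = 0}) =
          1 / ((Q + 1 : ℕ) : ℝ) := by
        intro A'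
        rw [mu_coord, hYcard]
        have h6 : {y : Y | y.1 = 0} = ({(0 : Fin (Q + 1))} : Set (Fin (Q + 1))) ×ˢ
            (Set.univ : Set 𝒰) := by
          ext y
          constructor
          · intro h
            exact ⟨h, trivial⟩
          · rintro ⟨h, -⟩
            exact h
        rw [h6, Set.ncard_prod, Set.ncard_singleton, Set.ncard_univ, Nat.card_eq_fintype_card,
          Fintype.card_coe, h𝒰]
        have hM' : (0 : ℝ) < (M : ℝ) := by exact_mod_cast hM
        push_cast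
        field_simp
      have h7 := mu_exists_le (nbr X w d A)
        (fun A' (ω : Finset V → Y) => ω A' ∈ {y : Y | y.1 = 0})
      rw [Finset.sum_congr rfl (fun A' _ => h5 A'), Finset.sum_const, nsmul_eq_mul] at h7
      have h8 : ((nbr X w d A).card : ℝ) ≤ ((m + 1) ^ (d - 1) : ℕ) := by
        exact_mod_cast card_nbr_le hX (hAS.trans hSX)
      have h9 : ((nbr X w d A).card : ℝ) * (1 / ((Q + 1 : ℕ) : ℝ)) ≤ 1 / 2 := by
        rw [mul_one_div, div_le_div_iff₀ (by positivity) (by norm_num)]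
        have h10 : ((Q + 1 : ℕ) : ℝ) = 2 * ((m + 1) ^ (d - 1) : ℕ) + 1 := by
          simp only [Q]
          push_cast
          ring
        rw [h10]
        linarith
      linarith
    rw [h1, h2]
    have h4 : q = 1 / (((Q + 1 : ℕ) : ℝ) * M) * (1 / 2) := by
      simp only [q, Q]
      have hM' : (0 : ℝ) < (M : ℝ) := by exact_mod_cast hM
      field_simp
    rw [h4]
    exact mul_le_mul_of_nonneg_left h3 (by positivity)
  have hbad : ∀ S ∈ X.powersetCard (w + z),
      mu (fun ω : Finset V → Y => ∀ A ∈ C S, ¬ E S A ω) ≤ Real.exp (-(m : ℝ)) := by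
    intro S hS
    obtain ⟨hSX, hSc⟩ := Finset.mem_powersetCard.1 hS
    have hCcard := numeric hm hd hM hz (hC3 S hS)
    have hCpos : (C S).Nonempty := by
      rw [← Finset.card_pos]
      rcases Nat.eq_zero_or_pos (C S).card with h0 | h0
      · rw [h0] at hCcard
        have : (1 : ℝ) ≤ m := by exact_mod_cast hm
        simp at hCcard
        omega
      · exact h0
    obtain ⟨A0, hA0⟩ := hCpos
    have hq1 : q ≤ 1 := (hEq S hS A0 hA0).trans (mu_le_one _)
    have h1 := mu_forall_not_le (C S) (E S)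
      (fun A => {A' | A' = A ∨ A' ∈ nbr X w d A}) hq1 (by
        intro A _ ω ω' h
        have h2 : ω A = ω' A := h A (Or.inl rfl)
        have h3 : ∀ A' ∈ nbr X w d A, ω A' = ω' A' := fun A' hA' => h A' (Or.inr hA')
        refine and_congr (by rw [h2]) (forall₂_congr ?_)
        intro A' hA'
        rw [h3 A' hA']) (by
        intro A hA B hB hAB
        rw [Set.disjoint_left]
        intro D hDA hDB
        have h4 : (A ∆ D).card ≤ d - 1 := by
          rcases hDA with rfl | hDA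
          · simp
          · have := (Finset.mem_filter.1 hDA).2.2
            omega
        have h5 : (B ∆ D).card ≤ d - 1 := by
          rcases hDB with rfl | hDB
          · simp
          · have := (Finset.mem_filter.1 hDB).2.2
            omega
        have h6 := hC2 S hS A hA B hB hAB
        have h7 := card_symmDiff_triangle A D B
        rw [symmDiff_comm D B] at h7
        omega) (hEq S hS)
    refine h1.trans ?_
    have h2 : (1 - q) ^ (C S).card ≤ (Real.exp (-q)) ^ (C S).card :=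
      pow_le_pow_left₀ (by linarith) (Real.one_sub_le_exp_neg q) _
    refine h2.trans ?_
    rw [← Real.exp_nat_mul]
    refine Real.exp_le_exp.2 ?_
    linarith
  -- union bound
  by_contra hnone
  push Not at hnone
  have hall : ∀ ω : Finset V → Y, ∃ S ∈ X.powersetCard (w + z), ∀ A ∈ C S, ¬ E S A ω := by
    intro ω
    obtain ⟨S, hS, hSb⟩ := hnone ω
    refine ⟨S, hS, ?_⟩
    intro A hA hE
    obtain ⟨hSX, hSc⟩ := Finset.mem_powersetCard.1 hS
    have hA' := hC1 S hS hA
    obtain ⟨hAS, hAc⟩ := Finset.mem_powersetCard.1 hA'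
    have h1 : ω A = ((0 : Fin (Q + 1)), u0 S A) := hE.1
    refine hSb A hA' ⟨?_, hE.2⟩ ?_
    · rw [h1]
    · rw [h1]
      exact hu0 S A hSX hSc hAS hAc
  have h1 : (1 : ℝ) ≤ ∑ S ∈ X.powersetCard (w + z),
      mu (fun ω : Finset V → Y => ∀ A ∈ C S, ¬ E S A ω) := by
    refine le_trans ?_ (mu_exists_le (X.powersetCard (w + z))
      (fun S (ω : Finset V → Y) => ∀ A ∈ C S, ¬ E S A ω))
    have hset : {ω : Finset V → Y | ∃ S ∈ X.powersetCard (w + z), ∀ A ∈ C S, ¬ E S A ω} =
        Set.univ := Set.eq_univ_of_forall hall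
    unfold mu
    rw [hset, Set.ncard_univ, div_self (cardOmega_pos (Finset V) Y).ne']
  have h2 : (∑ S ∈ X.powersetCard (w + z),
      mu (fun ω : Finset V → Y => ∀ A ∈ C S, ¬ E S A ω)) ≤
      2 ^ m * Real.exp (-(m : ℝ)) := by
    refine (Finset.sum_le_card_nsmul _ _ _ hbad).trans ?_
    rw [nsmul_eq_mul]
    refine mul_le_mul_of_nonneg_right ?_ (Real.exp_pos _).le
    have h3 : (X.powersetCard (w + z)).card ≤ 2 ^ m := by
      refine (Finset.card_le_card (t := X.powerset) (fun A hA =>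
        Finset.mem_powerset.2 (Finset.mem_powersetCard.1 hA).1)).trans ?_
      rw [Finset.card_powerset]
      exact Nat.pow_le_pow_right (by norm_num) hX
    exact_mod_cast h3
  have h4 : (2 : ℝ) ^ m * Real.exp (-(m : ℝ)) < 1 := by
    have h5 : (2 : ℝ) ^ m < Real.exp 1 ^ m := by
      refine pow_lt_pow_left₀ ?_ (by norm_num) (by omega)
      have := Real.exp_one_gt_d9
      linarith
    have h6 : Real.exp 1 ^ m * Real.exp (-(m : ℝ)) = 1 := by
      rw [← Real.exp_nat_mul, mul_one, ← Real.exp_add, add_neg_cancel, Real.exp_zero]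
    calc (2 : ℝ) ^ m * Real.exp (-(m : ℝ)) < Real.exp 1 ^ m * Real.exp (-(m : ℝ)) :=
          mul_lt_mul_of_pos_right h5 (Real.exp_pos _)
      _ = 1 := h6
  linarith

end Pool.Agent.Lib.MP_a7c66d_lc
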