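import Mathlib

/-!
# Positions that Alice can win

Vectors in the cube are represented by their supports, finite sets of coordinates. `R x i` says
that the edge in direction `i` at the point `x` is admissible.
-/

open scoped symmDiff

namespace Pool.Agent.Lib.MP_a7c66d_lc

variable {V : Type*} [DecidableEq V]

/-- Write the bit `b` in the coordinate `i`. -/
def upd (x : Finset V) (i : V) (b : Bool) : Finset V := if b = true then insert i x else x.erase i

lemma mem_upd {x : Finset V} {i j : V} {b : Bool} :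
    j ∈ upd x i b ↔ (j = i ∧ b = true) ∨ (j ≠ i ∧ j ∈ x) := by
  unfold upd
  cases b
  · simp
  · by_cases h : j = i
    · simp [h]
    · simp [h]

/-- In the position with current values `x`, where the coordinates in `S` have not arrived yet,
Alice can force the last edge to be admissible. -/
inductive Win (R : Finset V → V → Prop) : Finset V → Finset V → Prop
  | last (x : Finset V) (i : V) (h : R x i) : Win R x {i}
  | step (x S : Finset V) (hS : 2 ≤ S.card) (f : V → Bool)
      (h : ∀ i ∈ S, Win R (upd x i (f i)) (S.erase i)) : Win R x S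

lemma Win.mono {R R' : Finset V → V → Prop} (hR : ∀ x i, R x i → R' x i) {x S : Finset V}
    (h : Win R x S) : Win R' x S := by
  induction h with
  | last x i h => exact Win.last x i (hR x i h)
  | step x S hS f _ ih => exact Win.step x S hS f ih

lemma Win.translate {R : Finset V → V → Prop} (A : Finset V) {x S : Finset V}
    (h : Win R x S) : Win (fun v i => R (v ∆ A) i) (x ∆ A) S := by
  induction h with
  | last x i h =>
    refine Win.last _ i ?_
    rw [symmDiff_symmDiff_cancel_right]
    exact h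
  | step x S hS f _ ih =>
    refine Win.step _ S hS (fun i => xor (f i) (decide (i ∈ A))) ?_
    intro i hi
    have h1 : upd (x ∆ A) i (xor (f i) (decide (i ∈ A))) = (upd x i (f i)) ∆ A := by
      ext j
      rw [mem_upd, Finset.mem_symmDiff, Finset.mem_symmDiff, mem_upd]
      by_cases hj : j = i
      · subst hj
        cases hf : f j <;> by_cases hA : j ∈ A <;> simp [hA]
      · simp [hj]
    rw [h1]
    exact ih i hi

/-- `R` does not distinguish the two ends of an edge. -/
def EdgeInv (R : Finset V → V → Prop) : Prop :=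
  ∀ x x' i, (∀ j, j ≠ i → (j ∈ x ↔ j ∈ x')) → R x i → R x' i

lemma Win.congr {R : Finset V → V → Prop} (hR : EdgeInv R) {x S : Finset V}
    (h : Win R x S) : ∀ x' : Finset V, (∀ j, j ∉ S → (j ∈ x ↔ j ∈ x')) → Win R x' S := by
  induction h with
  | last x i h =>
    intro x' hx
    refine Win.last _ i (hR x x' i ?_ h)
    intro j hj
    exact hx j (by simpa using hj)
  | step x S hS f _ ih =>
    intro x' hx
    refine Win.step _ S hS f ?_
    intro i hi
    refine ih i hi _ ?_
    intro j hj
    rw [mem_upd, mem_upd]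
    by_cases hji : j = i
    · simp [hji]
    · have : j ∉ S := fun hjS => hj (Finset.mem_erase.2 ⟨hji, hjS⟩)
      simp [hji, hx j this]

/-- Waiting: writing zeros until `s` coordinates remain. -/
lemma Win.wait {R : Finset V → V → Prop} {s : ℕ} (hs : 1 ≤ s) :
    ∀ (S : Finset V), s ≤ S.card → (∀ S' ⊆ S, S'.card = s → Win R ∅ S') → Win R ∅ S := by
  intro S
  induction S using Finset.strongInduction with
  | H S ih =>
    intro hS h
    rcases eq_or_lt_of_le hS with heq | hlt
    · exact h S (Finset.Subset.refl S) heq.symm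
    · refine Win.step _ S (by omega) (fun _ => false) ?_
      intro i hi
      have h1 : upd (∅ : Finset V) i false = ∅ := by
        ext j
        rw [mem_upd]
        simp
      rw [h1]
      have hc : (S.erase i).card = S.card - 1 := Finset.card_erase_of_mem hi
      refine ih _ (Finset.erase_ssubset hi) (by omega) ?_
      intro S' hS' hc'
      exact h S' (hS'.trans (Finset.erase_subset i S)) hc'

/-- The admissible edges given by a set `P` of pairs (centre, territory). -/
def edgeRel (P : Set (Finset V × Finset V)) (x : Finset V) (i : V) : Prop :=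
  ∃ p ∈ P, i ∈ p.2 ∧ ∀ j, j ≠ i → (j ∈ x ↔ j ∈ p.1)

lemma edgeRel_inv (P : Set (Finset V × Finset V)) : EdgeInv (edgeRel P) := by
  intro x x' i hx h
  obtain ⟨p, hp, hi, hj⟩ := h
  exact ⟨p, hp, hi, fun j hji => (hx j hji).symm.trans (hj j hji)⟩

/-- The star strategy. -/
lemma win_star (P : Set (Finset V × Finset V)) {p : Finset V × Finset V} (hp : p ∈ P) :
    ∀ S : Finset V, S ⊆ p.2 → S.Nonempty → Win (edgeRel P) p.1 S := by
  intro S
  induction S using Finset.strongInduction with
  | H S ih =>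
    intro hS hne
    rcases Nat.lt_or_ge S.card 2 with hlt | hge
    · have h1 : S.card = 1 := by
        have := Finset.card_pos.2 hne
        omega
      obtain ⟨i, rfl⟩ := Finset.card_eq_one.1 h1
      exact Win.last _ i ⟨p, hp, hS (Finset.mem_singleton_self i), fun j _ => Iff.rfl⟩
    · refine Win.step _ S hge (fun i => decide (i ∈ p.1)) ?_
      intro i hi
      have h1 : upd p.1 i (decide (i ∈ p.1)) = p.1 := by
        ext j
        rw [mem_upd]
        by_cases hj : j = i
        · subst hj
          simp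
        · simp [hj]
      rw [h1]
      refine ih _ (Finset.erase_ssubset hi) ((Finset.erase_subset i S).trans hS) ?_
      rw [← Finset.card_pos, Finset.card_erase_of_mem hi]
      omega

/-- `Sch X k r s` : on the set `X` of coordinates there is a star forest with stars of size at most
`k`, centres at distance at most `r` from `∅` and pairwise at distance at least `3`, such that Alice
wins from the base point `∅` whenever at least `s` coordinates, all of them in `X`, remain. -/
def Sch (X : Finset V) (k r s : ℕ) : Prop :=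
  ∃ P : Set (Finset V × Finset V),
    (∀ p ∈ P, p.1.card ≤ r ∧ p.2.card ≤ k) ∧
    (∀ p ∈ P, ∀ q ∈ P, p ≠ q → 3 ≤ (p.1 ∆ q.1).card) ∧
    ∀ S ⊆ X, S.Nonempty → s ≤ S.card → Win (edgeRel P) ∅ S

lemma sch_base (X : Finset V) : Sch X X.card 0 1 := by
  refine ⟨{(∅, X)}, ?_, ?_, ?_⟩
  · intro p hp
    rw [Set.mem_singleton_iff.1 hp]
    simp
  · intro p hp q hq hpq
    exact absurd ((Set.mem_singleton_iff.1 hp).trans (Set.mem_singleton_iff.1 hq).symm) hpq
  · intro S hS hne _
    exact win_star {(∅, X)} (p := (∅, X)) rfl S hS hne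

/-- A sandwich family on `X`: pairs `(A, B)` such that the sets `A` are pairwise at distance at least
`d`, of size at most `w`, `B` has size at most `κ`, and every subset of `X` of size `s` lies between
`A` and `B` for one of the pairs. -/
def Sandwich (X : Finset V) (κ d w s : ℕ) : Prop :=
  ∃ Q : Set (Finset V × Finset V),
    (∀ q ∈ Q, q.1.card ≤ w ∧ q.2.card ≤ κ) ∧
    (∀ p ∈ Q, ∀ q ∈ Q, p ≠ q → d ≤ (p.1 ∆ q.1).card) ∧
    ∀ S ⊆ X, S.card = s → ∃ q ∈ Q, q.1 ⊆ S ∧ S ⊆ q.2

lemma card_symmDiff_triangle (a b c : Finset V) :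
    (a ∆ c).card ≤ (a ∆ b).card + (b ∆ c).card := by
  refine (Finset.card_le_card (t := (a ∆ b) ∪ (b ∆ c)) ?_).trans (Finset.card_union_le _ _)
  exact symmDiff_triangle a b c

/-- The composition step. -/
theorem sch_step {X : Finset V} {κ k r w s s₀ : ℕ} (hs : 1 ≤ s) (hs₀ : s₀ ≤ s)
    (hin : ∀ B : Finset V, B.card ≤ κ → Sch B k r s₀)
    (hQ : Sandwich X κ (2 * r + 3) w s) : Sch X k (w + r) s := by
  obtain ⟨Q, hQ1, hQ2, hQ3⟩ := hQ
  choose! P hP1 hP2 hP3 using hin
  refine ⟨{p | ∃ q ∈ Q, ∃ c ∈ P q.2, p = (q.1 ∆ c.1, c.2)}, ?_, ?_, ?_⟩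
  · rintro p ⟨q, hq, c, hc, rfl⟩
    have h1 := hQ1 q hq
    have h2 := hP1 q.2 h1.2 c hc
    refine ⟨?_, h2.2⟩
    have h3 : (q.1 ∆ c.1).card ≤ (q.1 ∆ (∅ : Finset V)).card + ((∅ : Finset V) ∆ c.1).card :=
      card_symmDiff_triangle _ _ _
    have h4 : (q.1 ∆ (∅ : Finset V)) = q.1 := symmDiff_bot q.1
    have h5 : ((∅ : Finset V) ∆ c.1) = c.1 := bot_symmDiff c.1
    rw [h4, h5] at h3
    change (q.1 ∆ c.1).card ≤ w + r
    omega
  · rintro p ⟨q, hq, c, hc, rfl⟩ p' ⟨q', hq', c', hc', rfl⟩ hne
    by_cases hqq : q = q'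
    · subst hqq
      have hcc : c ≠ c' := by
        rintro rfl
        exact hne rfl
      have h1 := hP2 q.2 (hQ1 q hq).2 c hc c' hc' hcc
      have h2 : (q.1 ∆ c.1) ∆ (q.1 ∆ c'.1) = c.1 ∆ c'.1 := by
        rw [symmDiff_comm q.1 c.1, symmDiff_assoc, symmDiff_symmDiff_cancel_left]
      change 3 ≤ ((q.1 ∆ c.1) ∆ (q.1 ∆ c'.1)).card
      rw [h2]
      exact h1
    · have h1 := hQ2 q hq q' hq' hqq
      have hc1 := (hP1 q.2 (hQ1 q hq).2 c hc).1
      have hc2 := (hP1 q'.2 (hQ1 q' hq').2 c' hc').1
      have h2 := card_symmDiff_triangle q.1 (q.1 ∆ c.1) q'.1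
      have h3 := card_symmDiff_triangle (q.1 ∆ c.1) (q'.1 ∆ c'.1) q'.1
      have h4 : q.1 ∆ (q.1 ∆ c.1) = c.1 := symmDiff_symmDiff_cancel_left _ _
      have h5 : (q'.1 ∆ c'.1) ∆ q'.1 = c'.1 := by
        rw [symmDiff_comm, symmDiff_symmDiff_cancel_left]
      rw [h4] at h2
      rw [h5] at h3
      change 3 ≤ ((q.1 ∆ c.1) ∆ (q'.1 ∆ c'.1)).card
      omega
  · intro S hSX _ hScard
    refine Win.wait hs S hScard ?_
    intro S' hS' hc'
    obtain ⟨q, hq, hqS, hSq⟩ := hQ3 S' (hS'.trans hSX) hc'
    have hne' : S'.Nonempty := by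
      rw [← Finset.card_pos]
      omega
    have h1 := hP3 q.2 (hQ1 q hq).2 S' hSq hne' (by omega)
    have h2 := (h1.translate q.1)
    have h3 : (∅ : Finset V) ∆ q.1 = q.1 := bot_symmDiff q.1
    rw [h3] at h2
    have h4 : Win (edgeRel {p | ∃ q ∈ Q, ∃ c ∈ P q.2, p = (q.1 ∆ c.1, c.2)}) q.1 S' := by
      refine h2.mono ?_
      rintro x i ⟨c, hc, hi, hx⟩
      refine ⟨(q.1 ∆ c.1, c.2), ⟨q, hq, c, hc, rfl⟩, hi, ?_⟩
      intro j hj
      have h5 := hx j hj
      rw [Finset.mem_symmDiff] at h5
      change j ∈ x ↔ j ∈ q.1 ∆ c.1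
      rw [Finset.mem_symmDiff]
      tauto
    refine h4.congr (edgeRel_inv _) ∅ ?_
    intro j hj
    have : j ∉ q.1 := fun h => hj (hqS h)
    simp [this]

end Pool.Agent.Lib.MP_a7c66d_lc
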